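import Pool.Agent.Q79.CN.Main

/-! Families of curves of arbitrary genus on a smooth cubic fourfold whose projections from a line of
the fourfold are lines, covered an odd number of times. -/

set_option autoImplicit false

namespace Pool.Agent.Results.MP_2619d0_ag.CurvesOverLines

open MvPolynomial

/-- `F` is the equation of a smooth cubic fourfold: a cubic form in six variables whose partial
derivatives have no common zero besides the origin -/
def SmoothCubic (F : MvPolynomial (Fin 6) ℂ) : Prop :=
  F.IsHomogeneous 3 ∧ ∀ z : Fin 6 → ℂ, (∀ i, eval z (pderiv i F) = 0) → z = 0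

/-- `p` and `q` span a line which is contained in the fourfold `F = 0` -/
def LineIn (F : MvPolynomial (Fin 6) ℂ) (p q : Fin 6 → ℂ) : Prop :=
  LinearIndependent ℂ ![p, q] ∧ ∀ a b : ℂ, eval (a • p + b • q) F = 0

/-- no plane through the line spanned by `p` and `q` is contained in the fourfold `F = 0` -/
def NoPlane (F : MvPolynomial (Fin 6) ℂ) (p q : Fin 6 → ℂ) : Prop :=
  ∀ y : Fin 6 → ℂ, LinearIndependent ℂ ![p, q, y] →
    ∃ a b c : ℂ, eval (a • p + b • q + c • y) F ≠ 0

/-- some plane meets the fourfold `F = 0` in the line spanned by `p` and `q` and a double line: in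
the coordinates `a`, `b`, `c` of the plane spanned by `p`, `q` and `y` the form `F` is the product
of `c`, the equation of the line, and the square of a nonzero linear form -/
def DoubleLine (F : MvPolynomial (Fin 6) ℂ) (p q : Fin 6 → ℂ) : Prop :=
  ∃ (y : Fin 6 → ℂ) (μ : Fin 3 → ℂ), LinearIndependent ℂ ![p, q, y] ∧ μ ≠ 0 ∧
    ∀ a b c : ℂ, eval (a • p + b • q + c • y) F = c * (μ 0 * a + μ 1 * b + μ 2 * c) ^ 2

/-- `x` is a point of the fourfold `F = 0` with coordinates in the field `M` of transcendence degree
four over `ℂ`, and the degree of `M` over the field generated over `ℂ` by the ratios of the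
coordinates of `x` is finite and odd; that is, `x` is a generic point of the fourfold and the degree
of `M` over the function field of the fourfold is odd -/
def OddPoint (F : MvPolynomial (Fin 6) ℂ) {M : Type} [Field M] [Algebra ℂ M] (x : Fin 6 → M) :
    Prop :=
  Algebra.trdeg ℂ M = 4 ∧ aeval x F = 0 ∧
    Odd (Module.finrank (IntermediateField.adjoin ℂ {z : M | ∃ i j, z = x i / x j}) M)

/-- Let `X` be a smooth cubic fourfold and let `p`, `q` span a line `ℓ` in `X` which is contained in
no plane in `X`, or which is such that some plane meets `X` in `ℓ` and a double line. Let `M` be a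
field of transcendence degree four, let `L` be a subfield of `M` and let `t` be transcendental over
`L` such that the degree of `M` over `L(t)` is odd. If the projection from `ℓ` of a point `x` of `X`
over `M` is the point `t y + z` of a line over `L`, then `x` is not a generic point of `X` over
whose function field `M` has odd degree. -/
theorem result (F : MvPolynomial (Fin 6) ℂ) (hF : SmoothCubic F) (p q : Fin 6 → ℂ)
    (hpq : LineIn F p q) (hline : NoPlane F p q ∨ DoubleLine F p q)
    (M : Type) [Field M] [Algebra ℂ M]
    (L : IntermediateField ℂ M) (t : M) (ht : Transcendental L t)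
    (hM : Odd (Module.finrank (IntermediateField.adjoin L {t}) M)) (y z : Fin 6 → L) (a b c : M) :
    ¬ OddPoint F (fun i => a * algebraMap ℂ M (p i) + b * algebraMap ℂ M (q i) +
      c * (t * (y i : M) + (z i : M))) := by
  obtain ⟨hF3, hsm⟩ := hF
  obtain ⟨hind, hl⟩ := hpq
  obtain ⟨T, hT, hFT⟩ := Pool.Agent.Q79.CN.exists_T F hF3
  subst hFT
  have hl' := Pool.Agent.Q79.CN.line_tri hT p q hl
  have hgood : Pool.Agent.Q79.CN.Good T p q := by
    rcases hline with hN | ⟨y, μ, hy, hμ, h⟩
    · exact Pool.Agent.Q79.CN.good_of_U hT p q hl' hind ⊤ trivial trivial (by simp)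
        (fun y _ hi => Pool.Agent.Q79.CN.plane_tri p q y (hN y hi))
    · exact ⟨y, μ, hy, hμ, Pool.Agent.Q79.CN.double_tri hT p q y μ hl' h⟩
  rintro ⟨htr, hx, hodd⟩
  exact Pool.Agent.Q79.CN.main_tri (n := 4) (by omega) hT hsm p q hl' hind hgood
    (by rw [htr]; norm_num) L t ht hM y z a b c _ rfl hx hodd

end Pool.Agent.Results.MP_2619d0_ag.CurvesOverLines
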