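import Pool.Agent.Q79.CN.Main

/-! Families of curves of arbitrary genus on a smooth cubic hypersurface of dimension at least five
whose projections from a line of the hypersurface are lines, covered an odd number of times. -/

set_option autoImplicit false

namespace Pool.Agent.Results.MP_2619d0_ag.CurvesOverLinesHigherDim

open MvPolynomial

/-- `F` is the equation of a smooth cubic hypersurface of dimension `n`: a cubic form in `n + 2`
variables whose partial derivatives have no common zero besides the origin -/
def SmoothCubic {n : ℕ} (F : MvPolynomial (Fin (n + 2)) ℂ) : Prop :=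
  F.IsHomogeneous 3 ∧ ∀ z : Fin (n + 2) → ℂ, (∀ i, eval z (pderiv i F) = 0) → z = 0

/-- `p` and `q` span a line which is contained in the hypersurface `F = 0` -/
def LineIn {n : ℕ} (F : MvPolynomial (Fin (n + 2)) ℂ) (p q : Fin (n + 2) → ℂ) : Prop :=
  LinearIndependent ℂ ![p, q] ∧ ∀ a b : ℂ, eval (a • p + b • q) F = 0

/-- the gradient of `F` at `z`, which gives the tangent hyperplane of `F = 0` at `z` -/
noncomputable def gradient {n : ℕ} (F : MvPolynomial (Fin (n + 2)) ℂ) (z : Fin (n + 2) → ℂ) :
    Fin (n + 2) → ℂ :=
  fun i => eval z (pderiv i F)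

/-- the line spanned by `p` and `q` is of the first type: the tangent hyperplanes of `F = 0` at its
points `p`, `p + q` and `q` are independent -/
def FirstType {n : ℕ} (F : MvPolynomial (Fin (n + 2)) ℂ) (p q : Fin (n + 2) → ℂ) : Prop :=
  LinearIndependent ℂ ![gradient F p, gradient F (p + q), gradient F q]

/-- some linear space of projective dimension five, given by `U`, contains the line spanned by `p`
and `q`, and this line lies in no plane which is contained both in this linear space and in the
hypersurface `F = 0` -/
def NoPlaneInSection {n : ℕ} (F : MvPolynomial (Fin (n + 2)) ℂ) (p q : Fin (n + 2) → ℂ) : Prop :=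
  ∃ U : Submodule ℂ (Fin (n + 2) → ℂ), p ∈ U ∧ q ∈ U ∧ Module.finrank ℂ U = 6 ∧
    ∀ y ∈ U, LinearIndependent ℂ ![p, q, y] → ∃ a b c : ℂ, eval (a • p + b • q + c • y) F ≠ 0

/-- some plane meets the hypersurface `F = 0` in the line spanned by `p` and `q` and a double
line: in the coordinates `a`, `b`, `c` of the plane spanned by `p`, `q` and `y` the form `F` is the
product of `c`, the equation of the line, and the square of a nonzero linear form -/
def DoubleLine {n : ℕ} (F : MvPolynomial (Fin (n + 2)) ℂ) (p q : Fin (n + 2) → ℂ) : Prop :=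
  ∃ (y : Fin (n + 2) → ℂ) (μ : Fin 3 → ℂ), LinearIndependent ℂ ![p, q, y] ∧ μ ≠ 0 ∧
    ∀ a b c : ℂ, eval (a • p + b • q + c • y) F = c * (μ 0 * a + μ 1 * b + μ 2 * c) ^ 2

/-- `x` is a point of the hypersurface `F = 0` of dimension `n` with coordinates in the field `M` of
transcendence degree `n` over `ℂ`, and the degree of `M` over the field generated over `ℂ` by the
ratios of the coordinates of `x` is finite and odd; that is, `x` is a generic point of the
hypersurface and the degree of `M` over the function field of the hypersurface is odd -/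
def OddPoint {n : ℕ} (F : MvPolynomial (Fin (n + 2)) ℂ) {M : Type} [Field M] [Algebra ℂ M]
    (x : Fin (n + 2) → M) : Prop :=
  Algebra.trdeg ℂ M = (n : ℕ) ∧ aeval x F = 0 ∧
    Odd (Module.finrank (IntermediateField.adjoin ℂ {z : M | ∃ i j, z = x i / x j}) M)

/-- Let `X` be a smooth cubic hypersurface of dimension `n ≥ 5` and let `p`, `q` span a line `ℓ` in
`X` which is of the first type, or which lies in no plane contained in the section of `X` by some
linear space of dimension five through `ℓ`, or which is such that some plane meets `X` in `ℓ` and a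
double line. Let `M` be a field of transcendence degree `n`, let `L` be a subfield of `M` and let
`t` be transcendental over `L` such that the degree of `M` over `L(t)` is odd. If the projection
from `ℓ` of a point `x` of `X` over `M` is the point `t y + z` of a line over `L`, then `x` is not a
generic point of `X` over whose function field `M` has odd degree. -/
theorem result (n : ℕ) (hn : 5 ≤ n) (F : MvPolynomial (Fin (n + 2)) ℂ) (hF : SmoothCubic F)
    (p q : Fin (n + 2) → ℂ) (hpq : LineIn F p q)
    (hline : FirstType F p q ∨ NoPlaneInSection F p q ∨ DoubleLine F p q)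
    (M : Type) [Field M] [Algebra ℂ M]
    (L : IntermediateField ℂ M) (t : M) (ht : Transcendental L t)
    (hM : Odd (Module.finrank (IntermediateField.adjoin L {t}) M)) (y z : Fin (n + 2) → L)
    (a b c : M) :
    ¬ OddPoint F (fun i => a * algebraMap ℂ M (p i) + b * algebraMap ℂ M (q i) +
      c * (t * (y i : M) + (z i : M))) := by
  obtain ⟨hF3, hsm⟩ := hF
  obtain ⟨hind, hl⟩ := hpq
  obtain ⟨T, hT, hFT⟩ := Pool.Agent.Q79.CN.exists_T F hF3
  subst hFT
  have hl' := Pool.Agent.Q79.CN.line_tri hT p q hl
  have hgood : Pool.Agent.Q79.CN.Good T p q := by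
    rcases hline with h | ⟨U, hpU, hqU, hU, hN⟩ | ⟨y, μ, hy, hμ, h⟩
    · obtain ⟨U, hpU, hqU, hU, hN⟩ := Pool.Agent.Q79.CN.good_of_first hn hT
        (Pool.Agent.Q79.CN.smooth_of hT hsm) p q hl' hind (Pool.Agent.Q79.CN.first_tri hT p q h)
      exact Pool.Agent.Q79.CN.good_of_U hT p q hl' hind U hpU hqU hU hN
    · exact Pool.Agent.Q79.CN.good_of_U hT p q hl' hind U hpU hqU hU.ge
        (fun y hy hi => Pool.Agent.Q79.CN.plane_tri p q y (hN y hy hi))
    · exact ⟨y, μ, hy, hμ, Pool.Agent.Q79.CN.double_tri hT p q y μ hl' h⟩
  rintro ⟨htr, hx, hodd⟩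
  exact Pool.Agent.Q79.CN.main_tri (by omega) hT hsm p q hl' hind hgood htr L t ht hM
    y z a b c _ rfl hx hodd

end Pool.Agent.Results.MP_2619d0_ag.CurvesOverLinesHigherDim
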