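import Pool.Agent.Q79.C3.Fin

/-! A smooth cubic fourfold which contains no plane is not the image of a projective space under a
rational map given by forms of degree at most three. -/

set_option autoImplicit false

namespace Pool.Agent.Results.MP_2619d0_ag.NoCubicParametrization

open MvPolynomial

/-- The tuple `G` of polynomials in `N` variables gives a dominant rational map to the
hypersurface `F = 0`: `F` vanishes at `G`, and every form vanishing at `G` is divisible by `F`. -/
def Dominant {m N : ℕ} (F : MvPolynomial (Fin m) ℂ) (G : Fin m → MvPolynomial (Fin N) ℂ) : Prop :=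
  aeval G F = 0 ∧ ∀ (e : ℕ) (H : MvPolynomial (Fin m) ℂ), H.IsHomogeneous e →
    aeval G H = 0 → F ∣ H

/-- the restriction of `G` to an affine subspace of the space of parameters: the polynomials
`G i (c + A s)` in the variables `s_1, …, s_n` -/
noncomputable def restriction {m N n : ℕ} (G : Fin m → MvPolynomial (Fin N) ℂ) (c : Fin N → ℂ)
    (A : Matrix (Fin N) (Fin n) ℂ) : Fin m → MvPolynomial (Fin n) ℂ :=
  fun i => aeval (fun l : Fin N =>
    (C (c l) + ∑ s, C (A l s) * X s : MvPolynomial (Fin n) ℂ)) (G i)

/-- the degree of the map given by `G`: the degree of the field of rational functions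
`ℂ(s_1, …, s_n)` over its subfield generated over `ℂ` by all ratios `G i / G j` -/
noncomputable def mapDegree {m n : ℕ} (G : Fin m → MvPolynomial (Fin n) ℂ) : ℕ :=
  Module.finrank (IntermediateField.adjoin ℂ {z : FractionRing (MvPolynomial (Fin n) ℂ) |
    ∃ i j, z = algebraMap (MvPolynomial (Fin n) ℂ) (FractionRing (MvPolynomial (Fin n) ℂ)) (G i) /
      algebraMap (MvPolynomial (Fin n) ℂ) (FractionRing (MvPolynomial (Fin n) ℂ)) (G j)})
    (FractionRing (MvPolynomial (Fin n) ℂ))

/-- Let `F` be a cubic form in six variables whose partial derivatives have no common zero besides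
the origin, and suppose that the cubic fourfold `F = 0` contains no plane. Let `G` be a dominant
rational map from projective `N`-space to `F = 0`, given by polynomials of degree at most `k` in `N`
variables. Then `4 ≤ k`. Moreover the restriction of `G` to some four-dimensional affine subspace
of the parameters is dominant, and the degree `δ` of every such restriction satisfies `1 ≤ δ` and
`48 δ ≤ 5 (k - 1) ^ 4`, and `δ ≤ 8` for `k = 4`. -/
theorem result (N k : ℕ) (F : MvPolynomial (Fin 6) ℂ) (hF : F.IsHomogeneous 3)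
    (hsmooth : ∀ z : Fin 6 → ℂ, (∀ i, eval z (pderiv i F) = 0) → z = 0)
    (hplane : ∀ v : Fin 3 → Fin 6 → ℂ, LinearIndependent ℂ v →
      ∃ c : Fin 3 → ℂ, eval (∑ i, c i • v i) F ≠ 0)
    (G : Fin 6 → MvPolynomial (Fin N) ℂ) (hG : ∀ i, (G i).totalDegree ≤ k)
    (hdominant : Dominant F G) :
    4 ≤ k ∧
    (∃ (c : Fin N → ℂ) (A : Matrix (Fin N) (Fin 4) ℂ), Dominant F (restriction G c A)) ∧
    (∀ (c : Fin N → ℂ) (A : Matrix (Fin N) (Fin 4) ℂ), Dominant F (restriction G c A) →
      1 ≤ mapDegree (restriction G c A) ∧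
      48 * mapDegree (restriction G c A) ≤ 5 * (k - 1) ^ 4 ∧
      (k = 4 → mapDegree (restriction G c A) ≤ 8)) := by
  refine ⟨?_, ?_, ?_⟩
  · by_contra hk
    push Not at hk
    obtain ⟨T, hT, hFT⟩ := Pool.Agent.Q79.C3.exists_T F hF
    subst hFT
    exact Pool.Agent.Q79.C3.no_cubic hT (Pool.Agent.Q79.C3.smoothT hT hsmooth)
      (Pool.Agent.Q79.C3.noPlaneT hT hplane) hsmooth N G (fun i => (hG i).trans (by omega))
      hdominant
  · obtain ⟨c, A, h1, h2⟩ := Pool.Agent.TH314.PD.restrict_exists (n := 4) (d := 3) (by norm_num)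
      hF (Pool.Agent.TH314.PD.ne_zero_of_smooth hsmooth) G hdominant.1 hdominant.2
    exact ⟨c, A, h1, h2⟩
  · intro c A hdom
    obtain ⟨h3, h4⟩ := Pool.Agent.TH314.PD.bound (n := 4) (d := 3) (k := k) (by norm_num) F hF
      hsmooth (restriction G c A)
      (fun i => Pool.Agent.TH314.PD.aeval_sub_deg c A (G i) (hG i)) hdom.1 hdom.2
    have h5 : 0 < Module.finrank (Pool.Agent.TH314.PD.ratioField fun i =>
        algebraMap (MvPolynomial (Fin 4) ℂ) (FractionRing (MvPolynomial (Fin 4) ℂ))
          (restriction G c A i)) (FractionRing (MvPolynomial (Fin 4) ℂ)) :=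
      Module.finrank_pos
    have h6 : mapDegree (restriction G c A) * (3 * (3 - 1) ^ 4) ≤ (4 + 1) * (k - 1) ^ 4 := h4
    refine ⟨h5, by linarith, ?_⟩
    intro hk
    subst hk
    norm_num at h6
    omega

end Pool.Agent.Results.MP_2619d0_ag.NoCubicParametrization
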