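import Pool.Agent.Q68.SM.Main
import Pool.Agent.Q68.SM.Gen

/-!
# The number of monomials of a parametrization of a smooth hypersurface

Let `X` be a smooth hypersurface of dimension `n` and degree `d ≥ 2` (for instance a smooth cubic),
and let `G` be a dominant rational map from affine `N`-space to `X` (birational or not), given by
polynomials whose monomials all have exponents in the finite set `A`. There is no restriction on
the degrees of the monomials or on the number `N` of parameters.

* The hypersurface contains a linear space whose dimension (as a vector space) is at least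
  `3 n + 4 - 2 |A|`. It is spanned by the coefficient vectors of a face of the polytope of `A` whose
  elements are affinely independent and which contains all but at most `2 (|A| - n - 1)` elements of
  `A` (a polyhedral form of the theorem of Steinitz).
* Therefore `4 |A| ≥ 5 n + 6`, for every smooth `X`. (For the quadric surface `x₀ x₃ = x₁ x₂` and
  the parametrization `(1, t₁, t₂, t₁ t₂)` this is an equality.)
* If the coefficients of the equation of `X` are algebraically independent, then
  `(n + 2) |A| + 1` is at least the number of monomials of degree `d` in `n + 2` variables. For a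
  very general cubic therefore `|A| ≥ (n + 3) (n + 4) / 6 - 1 / (n + 2)`.
-/

set_option autoImplicit false

namespace Pool.Agent.Results.MP_2619d0_ag.SparseParametrizations

open MvPolynomial

/-- The tuple `G` of polynomials in `N` variables gives a dominant rational map from affine
`N`-space to the hypersurface `F = 0`: `F` vanishes at `G`, and every form vanishing at `G` is
divisible by `F`. -/
def Dominant {m N : ℕ} (F : MvPolynomial (Fin m) ℂ) (G : Fin m → MvPolynomial (Fin N) ℂ) : Prop :=
  aeval G F = 0 ∧ ∀ (e : ℕ) (H : MvPolynomial (Fin m) ℂ), H.IsHomogeneous e →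
    aeval G H = 0 → F ∣ H

/-- the exponents of all monomials of the polynomials `G i` are in the set `A` -/
def ExponentsIn {m N : ℕ} (A : Finset (Fin N →₀ ℕ)) (G : Fin m → MvPolynomial (Fin N) ℂ) : Prop :=
  ∀ i, (G i).support ⊆ A

/-- Let `F` be a form of degree `d ≥ 2` in `n + 2` variables whose partial derivatives have no
common zero besides the origin, and let `G` be a dominant rational map from affine `N`-space to the
hypersurface `F = 0` with exponents in the finite set `A`. Then
(1) `F` vanishes on a linear subspace `W` of `ℂ ^ (n + 2)` with `dim W ≥ 3 n + 4 - 2 |A|`;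
(2) `4 |A| ≥ 5 n + 6`;
(3) if the coefficients of `F` are algebraically independent over `ℚ`, then
`(n + 2) |A| + 1` is at least the binomial coefficient `(n + 1 + d).choose d`. -/
theorem result (n d N : ℕ) (hd : 2 ≤ d) (F : MvPolynomial (Fin (n + 2)) ℂ)
    (hF : F.IsHomogeneous d)
    (hsmooth : ∀ z : Fin (n + 2) → ℂ, (∀ i, eval z (pderiv i F) = 0) → z = 0)
    (A : Finset (Fin N →₀ ℕ)) (G : Fin (n + 2) → MvPolynomial (Fin N) ℂ)
    (hexp : ExponentsIn A G) (hdom : Dominant F G) :
    (∃ W : Submodule ℂ (Fin (n + 2) → ℂ), (∀ z ∈ W, eval z F = 0) ∧
      3 * n + 4 ≤ Module.finrank ℂ W + 2 * A.card) ∧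
    5 * n + 6 ≤ 4 * A.card ∧
    ((AlgebraicIndependent ℚ fun α : {α : Fin (n + 2) →₀ ℕ // ∑ i, α i = d} =>
        coeff (α : Fin (n + 2) →₀ ℕ) F) →
      (n + 1 + d).choose d ≤ (n + 2) * A.card + 1) := by
  refine ⟨Pool.Agent.Q68.SM.linear_space hd F hF hsmooth G hdom.1 hdom.2 A hexp,
    Pool.Agent.Q68.SM.monomials hd F hF hsmooth G hdom.1 hdom.2 A hexp, fun halg => ?_⟩
  have h1 := Pool.Agent.Q68.SM.dim_count F hF G hdom.1 hdom.2 A hexp halg
  have h2 : (n + 1 + d).choose d = (d + (n + 1)).choose (n + 1) := by
    rw [add_comm d (n + 1), Nat.choose_symm_add]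
  omega

end Pool.Agent.Results.MP_2619d0_ag.SparseParametrizations
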